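import Pool.Agent.Helper38.VF.Goals2

set_option autoImplicit false

namespace Pool.Agent.Helper38.VF

open Pool.Agent.Helper27.VF

universe u

theorem dst : DstStmt.{u} := by
  intro A _ B x y hy hext hker k hden
  obtain ⟨x', hx'⟩ := hden
  refine ⟨Fin.cons x (fun i => (x' i : A)), ?_⟩
  intro M _ _ _ _ hM
  have hB := hx' M (fun b hb => by
    have hb' : (b : A) ≠ 1 := fun h => hb (Subtype.ext h)
    exact hM (b : A) hb')
  rw [dense_iff_inter_open] at hB ⊢
  intro U hU hUne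
  obtain ⟨e, he⟩ := hUne
  -- a box
  obtain ⟨I, u, hu, hsub⟩ := isOpen_pi_iff.1 hU e he
  let V : Fin (k + 1) → Set M := fun i => if i ∈ I then u i else Set.univ
  have hV : ∀ i, IsOpen (V i) ∧ e i ∈ V i := by
    intro i
    by_cases hi : i ∈ I
    · simp only [V, hi, if_true]
      exact hu i hi
    · simp only [V, hi, if_false]
      exact ⟨isOpen_univ, trivial⟩
  have hVU : ∀ z : Fin (k + 1) → M, (∀ i, z i ∈ V i) → z ∈ U := by
    intro z hz
    refine hsub ?_
    intro i hi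
    have := hz i
    have hi' : i ∈ I := hi
    simpa only [V, hi', if_true] using this
  -- the last coordinates
  have hO : IsOpen (Set.univ.pi fun i : Fin k => V i.succ) :=
    isOpen_set_pi Set.finite_univ fun i _ => (hV i.succ).1
  obtain ⟨z, hz1, δB, hδB, hz2⟩ := hB _ hO ⟨fun i => e i.succ, fun i _ => (hV i.succ).2⟩
  obtain ⟨δ₁, hδ₁, hδ₁B⟩ := hext M δB hδB
  -- the first coordinate
  have hO2 : IsOpen {m : M | δ₁ x + m ∈ V 0} :=
    (hV 0).1.preimage (continuous_const.add continuous_id)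
  have hne2 : {m : M | δ₁ x + m ∈ V 0}.Nonempty := ⟨e 0 - δ₁ x, by
    simpa using (hV 0).2⟩
  obtain ⟨m, hm1, v, hm2⟩ := (dense_iff_inter_open.1 (hM y hy)) _ hO2 hne2
  obtain ⟨δ₂, hδ₂, hδ₂B, hδ₂x⟩ := hker M v
  refine ⟨fun i => δ₁ ((Fin.cons x (fun i => (x' i : A)) : Fin (k + 1) → A) i) +
    δ₂ ((Fin.cons x (fun i => (x' i : A)) : Fin (k + 1) → A) i), ?_, fun a => δ₁ a + δ₂ a, ?_,
    fun i => rfl⟩
  · refine hVU _ ?_
    intro i
    refine Fin.cases ?_ ?_ i
    · simp only [Fin.cons_zero]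
      rw [hδ₂x, ← hm2]
      exact hm1
    · intro j
      simp only [Fin.cons_succ]
      rw [hδ₂B _ (x' j).2, add_zero, hδ₁B, ← hz2]
      exact hz1 j (Set.mem_univ j)
  · intro a b
    change δ₁ (a * b) + δ₂ (a * b) = δ₁ a + δ₂ a + a • (δ₁ b + δ₂ b)
    rw [hδ₁, hδ₂, smul_add]
    abel

end Pool.Agent.Helper38.VF
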