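import Pool.Agent.Helper27.VF.Goals

/-!
# Project VTF: finitely generated virtually torsion-free groups (packets)

All packets of `Pool.Agent.Helper27.VF.Goals` except HAL, RNK, IND, APP are used unchanged.
-/

set_option autoImplicit false

namespace Pool.Agent.Helper38.VF

open Pool.Agent.Helper27.VF

universe u

/-- The group has no elements of finite order. -/
def TF (A : Type u) [Group A] : Prop := ∀ (a : A) (n : ℕ), 0 < n → a ^ n = 1 → a = 1

/-- Derivations take dense sets of values at suitable `k` elements. -/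
def Den (A : Type u) [Group A] (k : ℕ) : Prop :=
  ∃ x : Fin k → A, ∀ (M : Type u) [AddCommGroup M] [TopologicalSpace M] [IsTopologicalAddGroup M]
    [DistribMulAction A M], (∀ y : A, y ≠ 1 → Dense {m : M | ∃ v : M, m = v - y • v}) →
    Dense {e : Fin k → M | ∃ δ : A → M, IsDer δ ∧ ∀ i, e i = δ (x i)}

/-- The hypotheses of `DerStmt`, and labels on `B` are different from the labels outside. -/
structure Lab {A : Type u} [Group A] (B : Subgroup A) {Λ : Type u} (lam : A → Λ) : Prop where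
  h1 : ∀ b ∈ B, ∀ g g' : A, lam g = lam g' → lam (b * g) = lam (b * g')
  h2 : ∀ b ∈ B, ∀ g : A, lam (b * g) = lam g → b = 1
  h3 : ∀ x y : A, {q : A ⧸ B | ∃ g : A, (g : A ⧸ B) = q ∧ lam (g⁻¹ * x) ≠ lam (g⁻¹ * y)}.Finite
  h4 : ∀ b ∈ B, ∀ g : A, g ∉ B → lam (g⁻¹ * b) = lam g⁻¹
  h6 : ∀ b ∈ B, ∀ g : A, g ∉ B → lam b ≠ lam g

/-- **DEX.** (helper38)

Proof. As DER with `f = 0`: `C (b x) = b u`, `C (b g) = 0` if `lam g` is not in the orbit of `lam x`.
Only the cosets `B` and `x B` contribute to `δ x = C x - x C x⁻¹`. -/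
def DexStmt : Prop := ∀ (A : Type u) [Group A] (B : Subgroup A) (Λ : Type u) (lam : A → Λ),
  Lab B lam → ∀ x : A, x ∉ B →
  (∀ g : A, g ∉ B → x⁻¹ * g ∉ B → lam (g⁻¹ * x) = lam g⁻¹) →
  ∃ y : A, y ≠ 1 ∧ ∀ (M : Type u) [AddCommGroup M] [DistribMulAction A M] (v : M),
    ∃ δ : A → M, IsDer δ ∧ (∀ b ∈ B, δ b = 0) ∧ δ x = v - y • v

/-- **LAM.** (The inside of DRA. May assume `PthStmt`, `OraStmt`, `OrbStmt`, `OrcStmt`, `FrdStmt`.)

Proof. `Λ = A ⊕ (Set W × Set W)`, `lam g = inl g` for `g ∈ BB`, `lam g = inr d` for `g ∉ BB`, with the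
unique `d ∈ DD` with `Inn p g d.2`. See `DraStmt`. -/
def LamStmt : Prop := ∀ (A W : Type u) [Group A] [MulAction A W] (G G₀ : SimpleGraph W) (w : W)
  (p : Ultrafilter W), Stg A G G₀ w p → ∀ k : ℕ, Mn A G p k →
  (∀ (a : A) (n : ℕ), 0 < n → a ^ n = 1 → a = 1) →
  ∃ (Λ : Type u) (lam : A → Λ), Lab (BB A G p k) lam ∧
    ∀ g g' : A, g ∉ BB A G p k → g' ∉ BB A G p k →
      (∀ d ∈ DD A G p k, (Inn p g d.2 ↔ Inn p g' d.2)) → lam g = lam g'

/-- **ADJ.** (May assume `PthStmt`, `OraStmt`, `OrbStmt`.)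

Proof. `ν g` = number of the `c ∈ SS` with `Inn p 1 c.1`, `Inn p g c.2`. It is finite: `w ∉ c.2`,
`g w ∉ c.1` (Fact 1), PTH. It is positive iff `g ∉ BB` (ORB (2); for `g ∈ BB` by definition). Take
`x ∉ BB` with `ν x` minimal. Let `g ∉ BB`, `x⁻¹ g ∉ BB`. Let `d` be the unique element of `DD` with
`Inn p g⁻¹ d.2`, `d'` the unique element with `Inn p (g⁻¹ x) d'.2` (ORB, ORA). Suppose `d ≠ d'`. Put
`e = tr g d`, `f = tr g d'`. `e`: `g` on side 1, `1` on side 2, `x` on side 1. `f`: `g` and `1` on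
side 1, `x` on side 2. If `c ∈ SS` has `1` on side 1, `g` on side 2, then `(c.2, c.1)` translated by
`g⁻¹` has `1` on side 1, so by ORA (1) there is `d'' ∈ DD` below it, `e' = tr g d''`:
`e'.1 ⊆ c.2`, `c.1 ⊆ e'.2`; `1` is on side 2 of `e'`, so `d'' = d`, `e' = e` (ORA (2)), so `x` is on
side 1 of `e`, on side 2 of `c`. So `c` is counted in `ν x`; `f` is counted in `ν x` but not in `ν g`:
`ν g < ν x`, contradiction. -/
def AdjStmt : Prop := ∀ (A W : Type u) [Group A] [MulAction A W] (G G₀ : SimpleGraph W) (w : W)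
  (p : Ultrafilter W), Stg A G G₀ w p → ∀ k : ℕ, Mn A G p k → BB A G p k ≠ ⊤ →
  ∃ x : A, x ∉ BB A G p k ∧ ∀ g : A, g ∉ BB A G p k → x⁻¹ * g ∉ BB A G p k →
    ∀ d ∈ DD A G p k, (Inn p (g⁻¹ * x) d.2 ↔ Inn p g⁻¹ d.2)

/-- **DEV.** (helper67: packet E. Backup: from `DexStmt`, `LamStmt`, `AdjStmt`, helper38, helper55.) -/
def DevStmt : Prop := ∀ (A W : Type u) [Group A] [MulAction A W] (G G₀ : SimpleGraph W) (w : W)
  (p : Ultrafilter W), Stg A G G₀ w p → ∀ k : ℕ, Mn A G p k →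
  (∀ (a : A) (n : ℕ), 0 < n → a ^ n = 1 → a = 1) → (SS A G p k).Nonempty →
  ∃ x y : A, y ≠ 1 ∧ ∀ (M : Type u) [AddCommGroup M] [DistribMulAction A M] (v : M),
    ∃ δ : A → M, IsDer δ ∧ (∀ b ∈ BB A G p k, δ b = 0) ∧ δ x = v - y • v

/-- **DST.** The step.

Proof. `x' = Fin.cons x (fun i => (x i : A))`. `M` with its action restricted to `B` satisfies the
hypothesis of `Den B k`. Given a nonempty open set, it contains a product of nonempty open sets `U₀`,
`U'`; take a derivation of `B` with values in `U'`, extend it to `δ₁`; `{v - y • v}` is dense, so meets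
the translate of `U₀` by `- δ₁ x`; add the corresponding `δ`. -/
def DstStmt : Prop := ∀ (A : Type u) [Group A] (B : Subgroup A) (x y : A), y ≠ 1 →
  (∀ (M : Type u) [AddCommGroup M] [DistribMulAction A M] (f : B → M), IsDerOn B f →
    ∃ δ : A → M, IsDer δ ∧ ∀ b : B, δ b = f b) →
  (∀ (M : Type u) [AddCommGroup M] [DistribMulAction A M] (v : M),
    ∃ δ : A → M, IsDer δ ∧ (∀ b ∈ B, δ b = 0) ∧ δ x = v - y • v) →
  ∀ k : ℕ, Den B k → Den A (k + 1)

/-- Square summable functions. -/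
abbrev L2 (X : Type u) := lp (fun _ : X => ℝ) 2

/-- The action is by left translations. -/
def LeftAct (A : Type u) [Group A] [DistribMulAction A (L2 A)] : Prop :=
  ∀ (g : A) (f : L2 A) (a : A), (g • f) a = f (g⁻¹ * a)

/-- The operator commutes with right translations. -/
def Eqv {A : Type u} [Group A] {m n : ℕ} (C : L2 (Fin m × A) →L[ℝ] L2 (Fin n × A)) : Prop :=
  ∀ (h : A) (f f' : L2 (Fin m × A)), (∀ z, f' z = f (z.1, z.2 * h)) →
    ∀ z : Fin n × A, C f' z = C f (z.1, z.2 * h)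

/-- **ACT.** The action by left translations exists.

Proof. `(g • f) a = f (g⁻¹ a)` is in `ℓ²`: reindex the sum (`memℓp_gen_iff`, `Equiv.summable_iff`). -/
def ActStmt : Prop := ∀ (A : Type u) [Group A], ∃ _ : DistribMulAction A (L2 A), LeftAct A

/-- **L2D.** `1 - y` has dense range.

Proof. The set is a subspace (the action is linear: look at the coordinates); if it is not dense there
is `z ≠ 0` orthogonal to it (`Submodule.topologicalClosure_eq_top_iff`,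
`Submodule.orthogonal_eq_bot_iff`), so `⟪z, v⟫ = ⟪z, y • v⟫` for all `v`; with `v` the function
`lp.single 2 a 1`: `z a = z (y a)` for all `a`, so `z` is constant on the infinite sets
`{y ^ n a | n : ℕ}` (`y` has infinite order), and square summable, so `z a = 0`. -/
def L2dStmt : Prop := ∀ (A : Type u) [Group A] [DistribMulAction A (L2 A)], LeftAct A → TF A →
  ∀ y : A, y ≠ 1 → Dense {m : L2 A | ∃ v : L2 A, m = v - y • v}

/-- **FOX.** The values of a derivation are equivariant continuous functions of the values at the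
generators.

Proof. First `k = 1`: by `Subgroup.closure_induction` every `x : A` has a continuous linear
`c : L2 (Fin n × A) →L[ℝ] L2 A`, commuting with right translations, such that `c e = δ x` whenever
`e (i, b) = δ (a i) b`: for `x = a i` a coordinate projection, for `x = 1` zero, for products
`c_{x y} = c_x + x c_y`, for inverses `c_{x⁻¹} = - x⁻¹ c_x` (the left translation `x •` is a linear
isometry). Then put the `k` operators together (KUR). -/
def FoxStmt : Prop := ∀ (A : Type u) [Group A] [DistribMulAction A (L2 A)], LeftAct A →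
  ∀ (n k : ℕ) (a : Fin n → A) (x : Fin k → A), Subgroup.closure (Set.range a) = ⊤ →
  ∃ C : L2 (Fin n × A) →L[ℝ] L2 (Fin k × A), Eqv C ∧
    ∀ δ : A → L2 A, IsDer δ → ∀ e : L2 (Fin n × A), (∀ i b, e (i, b) = δ (a i) b) →
      ∀ i b, C e (i, b) = δ (x i) b

/-- **KUR.** `ℓ²(Fin k × A)` is `ℓ²(A)^k`, topologically.

Proof. Both directions are well defined (finite sums of sums) and bounded. -/
def KurStmt : Prop := ∀ (A : Type u) (k : ℕ),
  ∃ T : (Fin k → L2 A) ≃L[ℝ] L2 (Fin k × A), ∀ e i b, T e (i, b) = e i b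

/-- **RTR.** Right translations are isometries.

Proof. Reindex the sum. -/
def RtrStmt : Prop := ∀ (A : Type u) [Group A] (k : ℕ) (h : A),
  ∃ R : L2 (Fin k × A) ≃ₗᵢ[ℝ] L2 (Fin k × A), ∀ f z, R f z = f (z.1, z.2 * h)

/-- The trace. -/
noncomputable def tr' {A : Type u} [Group A] {n : ℕ} (Q : L2 (Fin n × A) →L[ℝ] L2 (Fin n × A)) :
    ℝ := by
  classical
  exact ∑ j : Fin n, (Q (lp.single 2 (j, (1 : A)) (1 : ℝ))) (j, 1)

/-- **TR1.** The trace property. (May assume `RtrStmt`.)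

Proof. Let `δ z = lp.single 2 z 1`, `P z z' = (P (δ z')) z = ⟪δ z, P (δ z')⟫`. Equivariance with
`h = g`: `P (i, a g⁻¹) ...`; precisely `P (i, a) (j, b) = P (i, a h) (j, b h)`. `(P Q) z z =
∑' y, P z y * Q y z` (the coordinates of `Q (δ z)` are `Q y z`; `P` is continuous, so
`P (Q δ z) z = ∑' y, Q y z * P z y`). So `tr (P Q) = ∑ j, ∑' (i, g), P (j, 1) (i, g) * Q (i, g) (j, 1)
= ∑ i j ∑' g, P (j, g⁻¹) (i, 1) * Q (i, 1) (j, g⁻¹)`, which is `tr (Q P)` after `g ↦ g⁻¹`; the sums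
converge absolutely (product of two square summable families). -/
def Tr1Stmt : Prop := ∀ (A : Type u) [Group A] (m n : ℕ)
  (P : L2 (Fin m × A) →L[ℝ] L2 (Fin n × A)) (Q : L2 (Fin n × A) →L[ℝ] L2 (Fin m × A)),
  Eqv P → Eqv Q → tr' (P.comp Q) = tr' (Q.comp P)

/-- **TR2.** Approximation (Hilbert spaces).

Proof. For `ε > 0` let `T = C C† + ε`: `⟪T x, x⟫ ≥ ε ‖x‖²`, so it is invertible (coercive:
`IsCoercive.continuousLinearEquivOfBilin`, or closed range and trivial kernel); `S = T⁻¹`.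
(1) `⟪C† S C x, x⟫ ≤ ‖x‖²`: let `y = S C x`, `C x = C C† y + ε y`, so
`⟪C† y, x⟫ = ⟪y, C x⟫ = ‖C† y‖² + ε ‖y‖² ≥ ‖C† y‖²`, and `⟪C† y, x⟫ ≤ ‖C† y‖ ‖x‖`, so `‖C† y‖ ≤ ‖x‖`.
(2) `S C C† u = u - ε S u`, `‖ε S u‖ ≤ ‖u‖`, and `ε S C C† u' → 0` as `‖S C C† u'‖ ≤ 2 ‖u'‖`; `C C†`
has dense range: its kernel is `ker C† = (range C)ᗮ = ⊥`. Choose `ε` for the finitely many `u j`.
(3) `T` commutes with `U₂`: take adjoints in `C U₁ = U₂ C` (isometric equivalences: the adjoint is the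
inverse), so `C† U₂ = U₁ C†`; hence `S` commutes with `U₂`. -/
def Tr2Stmt : Prop := ∀ (H₁ H₂ : Type u) [NormedAddCommGroup H₁] [InnerProductSpace ℝ H₁]
  [CompleteSpace H₁] [NormedAddCommGroup H₂] [InnerProductSpace ℝ H₂] [CompleteSpace H₂]
  (C : H₁ →L[ℝ] H₂), DenseRange C → ∀ (k : ℕ) (v : Fin k → H₂) (η : ℝ), 0 < η →
  ∃ S : H₂ →L[ℝ] H₂, (∀ x : H₁, inner ℝ (C.adjoint (S (C x))) x ≤ ‖x‖ ^ 2) ∧
    (∀ j, ‖v j‖ ^ 2 - η ≤ inner ℝ (S (C (C.adjoint (v j)))) (v j)) ∧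
    ∀ (U₁ : H₁ ≃ₗᵢ[ℝ] H₁) (U₂ : H₂ ≃ₗᵢ[ℝ] H₂), (∀ x, C (U₁ x) = U₂ (C x)) →
      (∀ y, S (U₂ y) = U₂ (S y)) ∧ ∀ y, C.adjoint (U₂ y) = U₁ (C.adjoint y)

/-- **TRC.** (May assume `Tr1Stmt`, `Tr2Stmt`, `RtrStmt`.)

Proof. TR2 with `v j = lp.single 2 (j, 1) 1`. `P = C† S`, `Q = C`: `tr (P Q) ≤ n` by the first part
(`(P Q δ) (j, 1) = ⟪P Q δ, δ⟫`, `‖δ‖ = 1`). `tr (Q P) = tr (C C† S)`, and
`tr (C C† S) = tr (S C C†) ≥ k - k η` (TR1 again). `η → 0`. Equivariance from RTR and the third part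
(with `U₁`, `U₂` the right translations by `h`). -/
def TrcStmt : Prop := ∀ (A : Type u) [Group A] (n k : ℕ)
  (C : L2 (Fin n × A) →L[ℝ] L2 (Fin k × A)), Eqv C → DenseRange C → k ≤ n

/-- **RK2.** (May assume `ActStmt`, `L2dStmt`, `FoxStmt`, `KurStmt`, `TrcStmt`.)

Proof. `M = L2 A`. `Den A k` with L2D: the values of derivations are dense in `Fin k → L2 A`, so by
KUR dense in `L2 (Fin k × A)`; they are in the range of the operator of FOX (KUR for `n` gives `e`). -/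
def Rk2Stmt : Prop := ∀ (A : Type u) [Group A] (n k : ℕ) (a : Fin n → A),
  Subgroup.closure (Set.range a) = ⊤ → TF A → Den A k → k ≤ n

/-- **IN2.** (May assume `DraStmt`, `DevStmt`, `DstStmt`, `TofStmt`, `OrbStmt`, `FacStmt`.)

Proof. Induction on `k`. `k = 0`: the zero derivation. Step: `W` is infinite, so `A` is infinite; as
`Con` fails some cut distinguishes two elements (otherwise `Z = univ`); let `m` be the minimum of the
sizes; `SS` is nonempty, `BB ≠ ⊤` (ORB (3)); TOF: `Con` fails for `BB`, so `Den (BB) k`; DRA, DEV,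
DST. -/
def In2Stmt : Prop := ∀ (k : ℕ) (A W : Type u) [Group A] [MulAction A W] (G G₀ : SimpleGraph W)
  (w : W) (p : Ultrafilter W), Stg A G G₀ w p → TF A → ¬ Con A G p → Den A k

/-- **AP2.** (May assume `In2Stmt`, `Rk2Stmt`, `KndStmt`.)

Proof. As APP; `A` is finitely generated (finite index), so `Con` holds by IN2 and RK2. -/
def Ap2Stmt : Prop := ∀ (Γ : Type u) [Group Γ], Group.FG Γ →
  (∃ A : Subgroup Γ, A.FiniteIndex ∧ ∀ a ∈ A, ∀ n : ℕ, 0 < n → a ^ n = 1 → a = 1) → ∀ S : Set Γ,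
  Subgroup.closure S = ⊤ → (∀ s ∈ S, s⁻¹ ∈ S) → (1 : Γ) ∉ S → S.Infinite →
  ∃ φ : ℕ → Set Γ,
    (∀ i, ((SimpleGraph.fromRel fun a b : Γ => a⁻¹ * b ∈ S).induce (φ i)).Connected) ∧
    (∀ i j, i ≠ j → Disjoint (φ i) (φ j)) ∧
    ∀ i j, i ≠ j → ∃ a ∈ φ i, ∃ b ∈ φ j,
      (SimpleGraph.fromRel fun a b : Γ => a⁻¹ * b ∈ S).Adj a b

end Pool.Agent.Helper38.VF
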