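import Pool.Agent.Helper52.VF.Base
import Pool.Agent.Helper67.VF.DEV
import Pool.Agent.Helper26.VF.ActRtr
import Pool.Agent.Helper90.VF.L2D
import Pool.Agent.Helper61.VF.FOX
import Pool.Agent.Helper48.VF.KUR
import Pool.Agent.Helper55.VF.TR1
import Pool.Agent.Helper61.VF.TR2
import Pool.Agent.Helper24.VF.TRC
import Pool.Agent.Helper70.VF.RK2
import Pool.Agent.Helper37.VF.IN2
import Pool.Agent.Helper58.VF.AP2
import Pool.Agent.Helper38.VF.DST

/-!
# Project VTF: assembly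
-/

set_option autoImplicit false

namespace Pool.Agent.Helper38.VF.Asm2

open Pool.Agent.Helper27.VF
open Pool.Agent.Helper52.VFBase

universe u

theorem t_DEV : DevStmt.{u} := Pool.Agent.Helper67.VTF.dev pth ora frd
theorem t_ACT : ActStmt.{u} := Pool.Agent.Helper26.VF.act
theorem t_RTR : RtrStmt.{u} := Pool.Agent.Helper26.VF.rtr
theorem t_L2D : L2dStmt.{u} := Pool.Agent.Helper90.VF.l2d
theorem t_KUR : KurStmt.{u} := Pool.Agent.Helper48.VF.kur
theorem t_FOX : FoxStmt.{u} := Pool.Agent.Helper61.VF.fox t_KUR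
theorem t_TR1 : Tr1Stmt.{u} := Pool.Agent.Helper55.VF.tr1
theorem t_TR2 : Tr2Stmt.{u} := Pool.Agent.Helper61.VF.tr2
theorem t_TRC : TrcStmt.{u} := Pool.Agent.Helper24.VF.trc t_TR1 t_TR2 t_RTR
theorem t_RK2 : Rk2Stmt.{u} := Pool.Agent.Helper70.VF.RK2 t_ACT t_L2D t_FOX t_KUR t_TRC
theorem t_DST : DstStmt.{u} := Pool.Agent.Helper38.VF.dst
theorem t_IN2 : In2Stmt.{u} := Pool.Agent.Helper37.VF.in2 dra t_DEV t_DST tof fac
theorem t_AP2 : Ap2Stmt.{u} := Pool.Agent.Helper58.VF.ap2 t_IN2 t_RK2 knd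

end Pool.Agent.Helper38.VF.Asm2
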