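import Mathlib

/-!
# M. Hall's theorem (weak form): a finitely generated proper subgroup of a free group lies in a proper
subgroup of finite index.
-/

namespace Pool.Agent.Helper38.VF

open FreeGroup

/-- extension of a partial bijection of a finite type to a permutation -/
theorem ext_perm0 {Y : Type*} [Finite Y] (p q : Y → Prop) (e : {v : Y // p v} ≃ {v : Y // q v}) :
    ∃ σ : Equiv.Perm Y, ∀ v : Y, ∀ h : p v, σ v = e ⟨v, h⟩ := by
  classical
  have : Fintype Y := Fintype.ofFinite Y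
  exact ⟨e.extendSubtype, fun v h => Equiv.extendSubtype_apply_of_mem _ _ h⟩

/-- extension of a partial bijection of a finite set of cosets -/
theorem ext_perm {X : Type*} (V : Set X) (hV : V.Finite) (f : Equiv.Perm X) :
    ∃ σ : Equiv.Perm V, (∀ v : V, ∀ h : f v ∈ V, σ v = ⟨f v, h⟩) ∧
      ∀ v : V, ∀ h : f.symm v ∈ V, σ.symm v = ⟨f.symm v, h⟩ := by
  classical
  have hF : Finite V := hV
  let e : {v : V // f v ∈ V} ≃ {v : V // f.symm v ∈ V} :=
    { toFun := fun v => ⟨⟨f v.1, v.2⟩, by simp⟩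
      invFun := fun v => ⟨⟨f.symm v.1, v.2⟩, by simp⟩
      left_inv := fun v => by ext; simp
      right_inv := fun v => by ext; simp }
  obtain ⟨σ, hσ⟩ := ext_perm0 (Y := V) (fun v => f v ∈ V) (fun v => f.symm v ∈ V) e
  refine ⟨σ, hσ, ?_⟩
  intro v h
  rw [Equiv.symm_apply_eq]
  have h2 := hσ ⟨f.symm v, h⟩ (by simp)
  rw [h2]
  ext
  simp [e]

theorem mh {α : Type*} (B : Subgroup (FreeGroup α)) (hB : B.FG) (g : FreeGroup α) (hg : g ∉ B) :
    ∃ L : Subgroup (FreeGroup α), B ≤ L ∧ g ∉ L ∧ L.FiniteIndex := by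
  classical
  obtain ⟨S, hS⟩ := hB
  let c0 : FreeGroup α ⧸ B := ((1 : FreeGroup α) : FreeGroup α ⧸ B)
  -- the finite set of cosets
  let V : Set (FreeGroup α ⧸ B) :=
    ⋃ s ∈ insert g S, {x | ∃ t ∈ (toWord s).tails, x = (FreeGroup.mk t) • c0}
  have hVfin : V.Finite := by
    refine Set.Finite.biUnion (Finset.finite_toSet _) fun s _ => ?_
    have h1 : {x | ∃ t ∈ (toWord s).tails, x = (FreeGroup.mk t) • c0} =
        (fun t => (FreeGroup.mk t) • c0) '' {t | t ∈ (toWord s).tails} := by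
      ext x
      constructor
      · rintro ⟨t, ht, rfl⟩
        exact ⟨t, ht, rfl⟩
      · rintro ⟨t, ht, rfl⟩
        exact ⟨t, ht, rfl⟩
    rw [h1]
    exact (List.finite_toSet _).image _
  have hmem : ∀ s ∈ insert g S, ∀ t, t <:+ toWord s → (FreeGroup.mk t) • c0 ∈ V := by
    intro s hs t ht
    refine Set.mem_biUnion hs ?_
    exact ⟨t, (List.mem_tails _ _).2 ht, rfl⟩
  have hc0 : c0 ∈ V := by
    have h1 := hmem g (Finset.mem_insert_self _ _) [] (List.nil_suffix)
    have h2 : (FreeGroup.mk ([] : List (α × Bool))) = 1 := rfl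
    rwa [h2, one_smul] at h1
  choose σ hσ1 hσ2 using fun a : α =>
    ext_perm V hVfin (MulAction.toPerm (FreeGroup.of a) : Equiv.Perm (FreeGroup α ⧸ B))
  let φ : FreeGroup α →* Equiv.Perm V := FreeGroup.lift σ
  have key : ∀ w : List (α × Bool), (∀ t, t <:+ w → (FreeGroup.mk t) • c0 ∈ V) →
      ((φ (FreeGroup.mk w)) ⟨c0, hc0⟩ : FreeGroup α ⧸ B) = (FreeGroup.mk w) • c0 := by
    intro w
    induction w with
    | nil =>
      intro _
      have h2 : (FreeGroup.mk ([] : List (α × Bool))) = 1 := rfl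
      rw [h2, _root_.map_one, one_smul]
      rfl
    | cons p w ih =>
      intro h
      have h3 := ih fun t ht => h t (ht.trans (List.suffix_cons _ _))
      have hw := h w (List.suffix_cons _ _)
      have hpw := h (p :: w) (List.suffix_refl _)
      obtain ⟨a, b⟩ := p
      have h4 : FreeGroup.mk ((a, b) :: w) = FreeGroup.mk [(a, b)] * FreeGroup.mk w := by
        rw [FreeGroup.mul_mk]
        rfl
      have h5 : φ (FreeGroup.mk w) ⟨c0, hc0⟩ = ⟨(FreeGroup.mk w) • c0, hw⟩ := Subtype.ext h3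
      rw [h4, _root_.map_mul, Equiv.Perm.mul_apply, h5, mul_smul]
      rw [h4, mul_smul] at hpw
      cases b with
      | true =>
        have h6 : FreeGroup.mk [(a, true)] = FreeGroup.of a := rfl
        rw [h6] at hpw ⊢
        have h7 : φ (FreeGroup.of a) = σ a := FreeGroup.lift_apply_of
        rw [h7, hσ1 a ⟨(FreeGroup.mk w) • c0, hw⟩ hpw]
        rfl
      | false =>
        have h6 : FreeGroup.mk [(a, false)] = (FreeGroup.of a)⁻¹ := rfl
        rw [h6] at hpw ⊢
        have h7 : φ (FreeGroup.of a)⁻¹ = (σ a)⁻¹ := by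
          rw [_root_.map_inv]
          congr 1
        rw [h7]
        have h8 := hσ2 a ⟨(FreeGroup.mk w) • c0, hw⟩ hpw
        have h9 : ((σ a)⁻¹ : Equiv.Perm V) = (σ a).symm := rfl
        rw [h9, h8]
        rfl
  have key2 : ∀ s ∈ insert g S,
      ((φ s) ⟨c0, hc0⟩ : FreeGroup α ⧸ B) = s • c0 := by
    intro s hs
    have h1 := key (toWord s) (hmem s hs)
    rwa [FreeGroup.mk_toWord] at h1
  have hsm : ∀ s : FreeGroup α, s • c0 = (s : FreeGroup α ⧸ B) := by
    intro s
    change ((s * 1 : FreeGroup α) : FreeGroup α ⧸ B) = _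
    rw [mul_one]
  have hFV : Finite V := hVfin
  refine ⟨(MulAction.stabilizer (Equiv.Perm V) (⟨c0, hc0⟩ : V)).comap φ, ?_, ?_, ?_⟩
  · refine hS.symm.le.trans ((Subgroup.closure_le _).2 ?_)
    intro s hs
    change φ s • (⟨c0, hc0⟩ : V) = ⟨c0, hc0⟩
    apply Subtype.ext
    change ((φ s) ⟨c0, hc0⟩ : FreeGroup α ⧸ B) = c0
    rw [key2 s (Finset.mem_insert_of_mem hs), hsm]
    have h1 : s ∈ B := hS.le (Subgroup.subset_closure hs)
    change ((s : FreeGroup α) : FreeGroup α ⧸ B) = ((1 : FreeGroup α) : FreeGroup α ⧸ B)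
    rw [QuotientGroup.eq]
    simpa using h1
  · intro h
    have h1 : φ g • (⟨c0, hc0⟩ : V) = ⟨c0, hc0⟩ := h
    have h2 : ((φ g) ⟨c0, hc0⟩ : FreeGroup α ⧸ B) = c0 := congrArg Subtype.val h1
    rw [key2 g (Finset.mem_insert_self _ _), hsm] at h2
    have h3 : ((g : FreeGroup α) : FreeGroup α ⧸ B) = ((1 : FreeGroup α) : FreeGroup α ⧸ B) := h2
    rw [QuotientGroup.eq] at h3
    apply hg
    simpa using h3
  · have h1 : Finite (Equiv.Perm V) := inferInstance
    have h2 : (MulAction.stabilizer (Equiv.Perm V) (⟨c0, hc0⟩ : V)).FiniteIndex := inferInstance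
    refine ⟨?_⟩
    rw [Subgroup.index_comap]
    intro h3
    exact h2.index_ne_zero (Subgroup.index_eq_zero_of_relIndex_eq_zero h3)

end Pool.Agent.Helper38.VF
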