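import Pool.Agent.Helper27.VF.Goals
import Pool.Agent.Helper38.VF.MH

/-!
# Project VF: the packets HAL and DER
-/

set_option autoImplicit false

namespace Pool.Agent.Helper38.VF

open Pool.Agent.Helper27.VF

universe u

theorem halStmt : HalStmt := by
  intro n B hB hne
  obtain ⟨g, hg⟩ : ∃ g, g ∉ B := by
    by_contra h
    push Not at h
    exact hne (Subgroup.eq_top_iff' B |>.2 h)
  obtain ⟨L, h1, h2, h3⟩ := mh B hB g hg
  refine ⟨L, h1, ?_, h3⟩
  rintro rfl
  exact h2 (Subgroup.mem_top g)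

section Der

variable {A : Type u} [Group A] (B : Subgroup A) {Λ : Type u} (lam : A → Λ)

/-- Two elements are equivalent if the labels are in the same orbit of `B`. -/
def rel (H1 : ∀ b ∈ B, ∀ g g' : A, lam g = lam g' → lam (b * g) = lam (b * g')) : Setoid A where
  r g g' := ∃ b : B, lam g' = lam (b * g)
  iseqv :=
    { refl := fun g => ⟨1, by simp⟩
      symm := by
        rintro g g' ⟨b, hb⟩
        refine ⟨b⁻¹, ?_⟩
        have := H1 (b⁻¹ : B) (b⁻¹ : B).2 _ _ hb
        rw [this]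
        simp
      trans := by
        rintro g g' g'' ⟨b, hb⟩ ⟨b', hb'⟩
        refine ⟨b' * b, ?_⟩
        rw [hb', H1 b' b'.2 _ _ hb]
        simp [mul_assoc] }

theorem exists_C (H1 : ∀ b ∈ B, ∀ g g' : A, lam g = lam g' → lam (b * g) = lam (b * g'))
    (H2 : ∀ b ∈ B, ∀ g : A, lam (b * g) = lam g → b = 1)
    {M : Type u} [AddCommGroup M] [DistribMulAction A M] (f : B → M) (hf : IsDerOn B f) :
    ∃ C : A → M, (∀ g g', lam g = lam g' → C g = C g') ∧
      ∀ (b : B) (g : A), C (b * g) = f b + (b : A) • C g := by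
  classical
  let s : Setoid A := rel B lam H1
  let rep : A → A := fun g => (Quotient.mk s g).out
  have hrep : ∀ g, ∃ b : B, lam g = lam (b * rep g) := fun g => Quotient.mk_out (s := s) g
  choose β hβ using hrep
  have huniq : ∀ (b b' : B) (r : A), lam (b * r) = lam (b' * r) → b = b' := by
    intro b b' r h
    have h1 := H1 (b'⁻¹ : B) (b'⁻¹ : B).2 _ _ h
    have h2 : lam (((b'⁻¹ : B) : A) * b * r) = lam r := by
      rw [mul_assoc, h1]
      simp
    have h3 := H2 (((b'⁻¹ : B) : A) * b) (B.mul_mem (b'⁻¹ : B).2 b.2) r h2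
    have h4 : (b'⁻¹ : B) * b = 1 := by
      ext
      exact h3
    exact (inv_mul_eq_one.1 h4).symm
  have hrepeq : ∀ (b : B) (g g' : A), lam g' = lam (b * g) → rep g = rep g' := by
    intro b g g' h
    change (Quotient.mk s g).out = (Quotient.mk s g').out
    congr 1
    exact Quotient.sound ⟨b, h⟩
  refine ⟨fun g => f (β g), ?_, ?_⟩
  · intro g g' h
    have h1 : rep g = rep g' := hrepeq 1 g g' (by simp [h])
    have h2 : β g = β g' := by
      refine huniq _ _ (rep g) ?_
      rw [← hβ g, h1, ← hβ g', h]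
    simp only [h2]
  · intro b g
    have h1 : rep g = rep (b * g) := hrepeq b g (b * g) rfl
    have h2 : β (b * g) = b * β g := by
      refine huniq _ _ (rep g) ?_
      rw [h1, ← hβ (b * g), ← h1]
      have := H1 b b.2 _ _ (hβ g)
      rw [this]
      simp [mul_assoc]
    simp only [h2]
    exact hf b (β g)

end Der

theorem derStmt : DerStmt.{u} := by
  classical
  intro A _ B Λ lam H1 H2 H3 H4 M _ _ f hf
  obtain ⟨C, hC1, hC2⟩ := exists_C B lam H1 H2 f hf
  -- the terms
  let T : A → A → A → M := fun g x y => g • C (g⁻¹ * y) - g • C (g⁻¹ * x)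
  have hE : ∀ (g : A) (b : B) (x : A), (g * b) • C ((g * b)⁻¹ * x) =
      g • (b : A) • f b⁻¹ + g • C (g⁻¹ * x) := by
    intro g b x
    have h1 : (g * b)⁻¹ * x = ((b⁻¹ : B) : A) * (g⁻¹ * x) := by
      simp [mul_assoc]
    rw [h1, hC2, mul_smul, smul_add, smul_add]
    congr 2
    simp [← mul_smul]
  have hT : ∀ (g g' x y : A), (g : A ⧸ B) = (g' : A ⧸ B) → T g x y = T g' x y := by
    intro g g' x y h
    have h1 : g⁻¹ * g' ∈ B := QuotientGroup.eq.1 h
    have h2 : g' = g * ((⟨g⁻¹ * g', h1⟩ : B) : A) := by simp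
    rw [h2]
    change _ = (g * _) • C ((g * _)⁻¹ * y) - (g * _) • C ((g * _)⁻¹ * x)
    rw [hE, hE]
    simp only [T]
    abel
  have hT0 : ∀ (g x y : A), lam (g⁻¹ * x) = lam (g⁻¹ * y) → T g x y = 0 := by
    intro g x y h
    simp only [T]
    rw [hC1 _ _ h, sub_self]
  have hfin : ∀ x y : A, (Function.support fun q : A ⧸ B => T q.out x y).Finite := by
    intro x y
    refine (H3 x y).subset ?_
    intro q hq
    refine ⟨q.out, QuotientGroup.out_eq' q, ?_⟩
    intro h
    exact hq (hT0 _ _ _ h)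
  let φ : A → A → M := fun x y => ∑ᶠ q : A ⧸ B, T q.out x y
  have hadd : ∀ x y z, φ x y + φ y z = φ x z := by
    intro x y z
    change (∑ᶠ q : A ⧸ B, T q.out x y) + (∑ᶠ q : A ⧸ B, T q.out y z) = ∑ᶠ q : A ⧸ B, T q.out x z
    rw [← finsum_add_distrib (hfin x y) (hfin y z)]
    refine finsum_congr fun q => ?_
    simp only [T]
    abel
  have hsmul : ∀ z x y, φ (z * x) (z * y) = z • φ x y := by
    intro z x y
    change (∑ᶠ q : A ⧸ B, T q.out (z * x) (z * y)) = z • ∑ᶠ q : A ⧸ B, T q.out x y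
    have h1 : z • (∑ᶠ q : A ⧸ B, T q.out x y) = ∑ᶠ q : A ⧸ B, z • T q.out x y :=
      (DistribSMul.toAddMonoidHom M z).map_finsum (hfin x y)
    rw [h1]
    rw [← finsum_comp_equiv (MulAction.toPerm (z⁻¹ : A) : Equiv.Perm (A ⧸ B))
      (f := fun q : A ⧸ B => z • T q.out x y)]
    refine finsum_congr fun q => ?_
    have h2 : T ((MulAction.toPerm (z⁻¹ : A) : Equiv.Perm (A ⧸ B)) q).out x y =
        T (z⁻¹ * q.out) x y := by
      refine hT _ _ _ _ ?_
      rw [QuotientGroup.out_eq']
      change z⁻¹ • q = _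
      conv_lhs => rw [← QuotientGroup.out_eq' q]
      rfl
    rw [h2]
    simp only [T]
    rw [smul_sub, ← mul_smul, ← mul_smul]
    simp [mul_assoc]
  have hδ : IsDer (fun x => φ 1 x) := by
    intro x y
    change φ 1 (x * y) = φ 1 x + x • φ 1 y
    rw [← hsmul, ← hadd 1 x (x * y), mul_one]
  have hB : ∀ b : B, φ 1 b = f b + (b : A) • C 1 - C 1 := by
    intro b
    change (∑ᶠ q : A ⧸ B, T q.out 1 b) = _
    rw [finsum_eq_single _ ((1 : A) : A ⧸ B)]
    · have h1 : T (((1 : A) : A ⧸ B)).out 1 b = T 1 1 b := hT _ _ _ _ (QuotientGroup.out_eq' _)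
      rw [h1]
      simp only [T]
      have h2 := hC2 b 1
      rw [mul_one] at h2
      simp [h2]
    · intro q hq
      refine hT0 _ _ _ ?_
      have h3 : q.out ∉ B := by
        intro h
        apply hq
        rw [← QuotientGroup.out_eq' q]
        exact QuotientGroup.eq.2 (by simpa using B.inv_mem h)
      rw [mul_one]
      exact (H4 b b.2 _ h3).symm
  refine ⟨fun x => φ 1 x - (x • C 1 - C 1), ?_, ?_⟩
  · intro x y
    have h := hδ x y
    change φ 1 (x * y) = φ 1 x + x • φ 1 y at h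
    change φ 1 (x * y) - ((x * y) • C 1 - C 1) =
      φ 1 x - (x • C 1 - C 1) + x • (φ 1 y - (y • C 1 - C 1))
    rw [h, smul_sub, smul_sub, mul_smul]
    abel
  · intro b
    change φ 1 b - ((b : A) • C 1 - C 1) = f b
    rw [hB]
    abel

end Pool.Agent.Helper38.VF
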