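import Pool.Agent.Helper38.VF.Goals2

/-!
# Project VTF: test of the result file, with `Ap2Stmt` as hypothesis
-/

set_option autoImplicit false

universe u v

namespace Pool.Agent.Helper38.VF.ResT

open Pool.Agent.Helper38.VF

/-- `IsMinor H G`: `H` is a minor of `G` (pairwise disjoint nonempty connected branch sets `φ v`,
one for each vertex `v` of `H`, and an edge of `G` between `φ v` and `φ w` for every edge `v w`
of `H`; branch sets may be infinite). -/
def IsMinor {V W : Type*} (H : SimpleGraph V) (G : SimpleGraph W) : Prop :=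
  ∃ φ : V → Set W, (∀ v, (G.induce (φ v)).Connected) ∧
    (∀ v w, v ≠ w → Disjoint (φ v) (φ w)) ∧
    (∀ v w, H.Adj v w → ∃ a ∈ φ v, ∃ b ∈ φ w, G.Adj a b)

/-- `S` is an admissible generating set: it generates the group, is symmetric and does not
contain `1`. -/
def IsGen {Γ : Type*} [Group Γ] (S : Set Γ) : Prop :=
  Subgroup.closure S = ⊤ ∧ (∀ s ∈ S, s⁻¹ ∈ S) ∧ (1 : Γ) ∉ S

/-- The Cayley graph: `g` and `h` are adjacent iff `g ≠ h` and `g⁻¹ h ∈ S` or `h⁻¹ g ∈ S`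
(for a symmetric `S` with `1 ∉ S` this says exactly `g⁻¹ h ∈ S`). -/
def cay {Γ : Type*} [Group Γ] (S : Set Γ) : SimpleGraph Γ :=
  SimpleGraph.fromRel (fun a b : Γ => a⁻¹ * b ∈ S)

/-- The group is finitely generated and has a torsion-free subgroup of finite index. -/
def FGVirtuallyTorsionFree (Γ : Type*) [Group Γ] : Prop :=
  Group.FG Γ ∧ ∃ A : Subgroup Γ, A.FiniteIndex ∧ ∀ a ∈ A, ∀ n : ℕ, 0 < n → a ^ n = 1 → a = 1

theorem part1 (h : Ap2Stmt.{u}) {Γ : Type u} [Group Γ] {S : Set Γ} (hS : IsGen S)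
    (hinf : S.Infinite) (hΓ : FGVirtuallyTorsionFree Γ)
    (V : Type v) [Countable V] (H : SimpleGraph V) : IsMinor H (cay S) := by
  obtain ⟨φ, h1, h2, h3⟩ := h Γ hΓ.1 hΓ.2 S hS.1 hS.2.1 hS.2.2 hinf
  obtain ⟨e, he⟩ := exists_injective_nat V
  exact ⟨fun v => φ (e v), fun v => h1 _, fun v w hvw => h2 _ _ fun h => hvw (he h),
    fun v w hvw => h3 _ _ fun h => hvw.ne (he h)⟩

theorem part2 (h : Ap2Stmt.{u}) {Γ : Type u} [Group Γ] {S : Set Γ} (hS : IsGen S) {T : Set Γ}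
    (hTS : T ⊆ S) (hTi : T.Infinite) (hTs : ∀ t ∈ T, t⁻¹ ∈ T)
    (hΓ : FGVirtuallyTorsionFree (Subgroup.closure T))
    (V : Type v) [Countable V] (H : SimpleGraph V) : IsMinor H (cay S) := by
  have hgen : IsGen {x : Subgroup.closure T | (x : Γ) ∈ T} := by
    refine ⟨Subgroup.closure_closure_coe_preimage, fun s hs => hTs _ hs, ?_⟩
    intro h1
    exact hS.2.2 (hTS h1)
  have hinf : {x : Subgroup.closure T | (x : Γ) ∈ T}.Infinite := by
    intro hfin
    apply hTi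
    refine (hfin.image (fun x : Subgroup.closure T => (x : Γ))).subset ?_
    intro t ht
    exact ⟨⟨t, Subgroup.subset_closure ht⟩, ht, rfl⟩
  obtain ⟨φ, h1, h2, h3⟩ := part1 h hgen hinf hΓ V H
  have hadj : ∀ a b : Subgroup.closure T,
      (cay {x : Subgroup.closure T | (x : Γ) ∈ T}).Adj a b → (cay S).Adj (a : Γ) (b : Γ) := by
    intro a b hab
    unfold cay at hab ⊢
    rw [SimpleGraph.fromRel_adj] at hab ⊢
    refine ⟨fun h => hab.1 (Subtype.ext h), ?_⟩
    rcases hab.2 with h | h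
    · exact Or.inl (hTS h)
    · exact Or.inr (hTS h)
  refine ⟨fun v => (fun x : Subgroup.closure T => (x : Γ)) '' (φ v), ?_, ?_, ?_⟩
  · intro v
    let f : (cay {x : Subgroup.closure T | (x : Γ) ∈ T}).induce (φ v) →g
        (cay S).induce ((fun x : Subgroup.closure T => (x : Γ)) '' (φ v)) :=
      { toFun := fun x => ⟨(x : Subgroup.closure T), (x : Subgroup.closure T), x.2, rfl⟩
        map_rel' := by
          intro a b hab
          exact hadj _ _ hab }
    refine (h1 v).map f ?_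
    rintro ⟨_, y, hy, rfl⟩
    exact ⟨⟨y, hy⟩, rfl⟩
  · intro v w hvw
    rw [Set.disjoint_left]
    rintro _ ⟨a, ha, rfl⟩ ⟨b, hb, hab⟩
    have hba : b = a := Subtype.ext hab
    subst hba
    exact Set.disjoint_left.1 (h2 v w hvw) ha hb
  · intro v w hvw
    obtain ⟨a, ha, b, hb, hab⟩ := h3 v w hvw
    exact ⟨a, ⟨a, ha, rfl⟩, b, ⟨b, hb, rfl⟩, hadj _ _ hab⟩

theorem result' (h : Ap2Stmt.{u}) :
    (∀ (Γ : Type u) [Group Γ] (S : Set Γ), IsGen S → S.Infinite → FGVirtuallyTorsionFree Γ →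
      ∀ (V : Type v) [Countable V] (H : SimpleGraph V), IsMinor H (cay S)) ∧
    (∀ (Γ : Type u) [Group Γ] (S : Set Γ), IsGen S → ∀ T ⊆ S, T.Infinite → (∀ t ∈ T, t⁻¹ ∈ T) →
      FGVirtuallyTorsionFree (Subgroup.closure T) →
      ∀ (V : Type v) [Countable V] (H : SimpleGraph V), IsMinor H (cay S)) ∧
    (∀ (Γ : ℕ → Type u) [∀ i, Group (Γ i)] [∀ i, Countable (Γ i)] (S : ∀ i, Set (Γ i)),
      (∀ i, IsGen (S i)) → (∀ i j, i < j → ¬ IsMinor (cay (S i)) (cay (S j))) →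
      ∀ j, 1 ≤ j → ∀ T ⊆ S j, T.Infinite → (∀ t ∈ T, t⁻¹ ∈ T) →
        ¬ FGVirtuallyTorsionFree (Subgroup.closure T)) := by
  refine ⟨?_, ?_, ?_⟩
  · intro Γ _ S hS hinf hΓ V _ H
    exact part1 h hS hinf hΓ V H
  · intro Γ _ S hS T hTS hTi hTs hΓ V _ H
    exact part2 h hS hTS hTi hTs hΓ V H
  · intro Γ _ _ S hS hbad j hj T hTS hTi hTs hΓ
    exact hbad 0 j (by omega) (part2 h (hS j) hTS hTi hTs hΓ _ _)

end Pool.Agent.Helper38.VF.ResT
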